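import Pool.Agent.Helper1.UQ.St1

/-!
Project UQ, module COL: collapse of the rank.
-/

set_option autoImplicit false

open Finset

namespace Pool.Agent.Helper84.UQ

open Classical Pool.Agent.Helper30.RCU Pool.Agent.Helper1.UQ

universe u

theorem hCOL (h1 : StRKM.{u}) : StCOL.{u} := by
  intro V V' ι φ σ ω U hU
  obtain ⟨-, -, hconn⟩ := h1 V V' ι φ σ
  have hU' : ends (cm φ σ) ω ⊆ U.image σ := by
    intro v hv
    rw [mem_ends] at hv
    obtain ⟨e, he, hve⟩ := hv
    change v ∈ (φ e).map σ at hve
    rw [Sym2.mem_map] at hve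
    obtain ⟨a, ha, rfl⟩ := hve
    exact Finset.mem_image_of_mem σ (hU (mem_ends.2 ⟨e, he, ha⟩))
  have e1 := rk_spec (φ := φ) hU
  have e2 := rk_spec (φ := cm φ σ) hU'
  have key : kU (cm φ σ) (U.image σ) ω ≤ kU φ U ω := by
    let f : (gr φ (ω : Set ι)).ConnectedComponent → (gr (cm φ σ) (ω : Set ι)).ConnectedComponent :=
      fun c => c.lift (fun u => (gr (cm φ σ) (ω : Set ι)).connectedComponentMk (σ u))
        (fun a b p _ => mk_eq.2 (hconn (ω : Set ι) a b p.reachable))
    have h : (U.image σ).image (gr (cm φ σ) (ω : Set ι)).connectedComponentMk =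
        (U.image (gr φ (ω : Set ι)).connectedComponentMk).image f := by
      rw [Finset.image_image, Finset.image_image]
      rfl
    unfold kU
    rw [h]
    exact Finset.card_image_le
  omega

end Pool.Agent.Helper84.UQ
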